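import Pool.Agent.W488.IW.Stm

/-! Project IX: Iwaniec's inequality for `2 < p <= 11/5`.  Definitions and statements. -/

set_option autoImplicit false

namespace Pool.Agent.W488.IX

open MeasureTheory Set Filter Topology
open Pool.Agent.W488.IW

/-! ### the flow with a general coefficient -/

/-- admissible coefficient -/
structure Coef (m : ℂ × ℂ → ℂ) : Prop where
  le1 : ∀ F, ‖m F‖ ≤ 1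
  lip : ∃ L : ℝ, ∀ F F' : ℂ × ℂ, ‖m F - m F'‖ ≤ L * (‖F.1 - F'.1‖ + ‖F.2 - F'.2‖)

/-- the velocity field -/
noncomputable def Vm (m : ℂ × ℂ → ℂ) (n : ℝ) (F : ℂ × ℂ) (p q r : ℂ) : ℂ :=
  n * q + m F * p + (starRingEnd ℂ) (m F) * r

noncomputable def Vpm (m : ℂ × ℂ → ℂ) (n : ℝ) (Λ : Finset Idx) (c : Idx → ℂ) (x : V) : ℂ :=
  Vm m n (gd Λ c x) (pp Λ c x) (qq Λ c x) (rr Λ c x)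

def S_CONCM : Prop := ∀ (m : ℂ × ℂ → ℂ) (n : ℝ), Coef m → 2 < n →
  ∃ (H : Type) (_ : NormedAddCommGroup H) (_ : InnerProductSpace ℂ H) (_ : CompleteSpace H)
    (D : Dat H), D.n = n ∧
    (∀ (Λ : Finset Idx) (c : Idx → ℂ) (k : Idx), (inner ℂ (D.e k : H) (VN D Λ c) : ℂ)
      = ∫ x in Icc (0 : V) 1, (starRingEnd ℂ) (ek k x) * Vpm m n Λ c x) ∧
    (∀ (Λ Λ' : Finset Idx) (c : Idx → ℂ), ‖VN D Λ c - pr D Λ' (VN D Λ c)‖ ^ 2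
      = ∫ x in Icc (0 : V) 1, ‖Vpm m n Λ c x - ∑ k ∈ Λ',
        (∫ y in Icc (0 : V) 1, (starRingEnd ℂ) (ek k y) * Vpm m n Λ c y) * ek k x‖ ^ 2)

/-- the flow theorem, tolerating an error `e0` -/
def S_FLOWM : Prop := ∀ (m : ℂ × ℂ → ℂ) (n : ℝ), Coef m → 2 < n → ∀ (w : ℂ × ℂ → ℝ),
  ContDiff ℝ 2 w → (∃ K : ℝ, ∀ F, ‖fderiv ℝ (fderiv ℝ w) F‖ ≤ K) → w 0 = 0 →
  fderiv ℝ w 0 = 0 → ∀ e0 : ℝ, 0 ≤ e0 →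
  (∀ (N : ℕ) (c : Idx → ℂ), -(e0 * di N c) ≤ ∫ x in Icc (0 : V) 1,
    DIV w (gd (box N) c x) (pp (box N) c x) (qq (box N) c x) (rr (box N) c x)
      (Vpm m n (box N) c x)) →
  ∀ (N : ℕ) (c : Idx → ℂ),
    -(e0 / (2 * (n - 2)) * en N c) ≤ ∫ x in Icc (0 : V) 1, w (gd (box N) c x)

/-- the certificate at a point -/
def Cert (m : ℂ × ℂ → ℂ) (n : ℝ) (w e g : ℂ × ℂ → ℝ) (F : ℂ × ℂ) : Prop :=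
  DifferentiableAt ℝ (fderiv ℝ w) F ∧ DifferentiableAt ℝ e F ∧ DifferentiableAt ℝ g F ∧
  ∀ p q r : ℂ, 0 ≤ 2 * DIV w F p q r (Vm m n F p q r) + OMa e F p q r + OMb g F p q r

/-- the flow theorem for functions with Lipschitz gradient and an almost everywhere certificate -/
def S_MOL : Prop := ∀ (m : ℂ × ℂ → ℂ) (n : ℝ), Coef m → 2 < n → ∀ (w e g : ℂ × ℂ → ℝ),
  Differentiable ℝ w → (∃ K, LipschitzWith K (fderiv ℝ w)) → (∃ K, LipschitzWith K e) →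
  (∃ K, LipschitzWith K g) → w 0 = 0 → fderiv ℝ w 0 = 0 →
  (∀ᵐ F ∂(volume : Measure (ℂ × ℂ)), Cert m n w e g F) → QC0 w

/-- mollification of Lipschitz functions -/
def S_MOL1 : Prop := ∀ (G : Type) [NormedAddCommGroup G] [NormedSpace ℝ G]
  [FiniteDimensional ℝ G] (f : ℂ × ℂ → G) (K : NNReal), LipschitzWith K f →
  ∀ ρ : ContDiffBump (0 : ℂ × ℂ),
  ContDiff ℝ (⊤ : ℕ∞) (fun F : ℂ × ℂ => ∫ y : ℂ × ℂ, ρ.normed volume y • f (F - y)) ∧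
  (∀ F : ℂ × ℂ, HasFDerivAt (fun F : ℂ × ℂ => ∫ y : ℂ × ℂ, ρ.normed volume y • f (F - y))
    (∫ y : ℂ × ℂ, ρ.normed volume y • fderiv ℝ f (F - y)) F) ∧
  (∀ F : ℂ × ℂ, Integrable (fun y : ℂ × ℂ => ρ.normed volume y • fderiv ℝ f (F - y))) ∧
  ∀ F : ℂ × ℂ, ‖(∫ y : ℂ × ℂ, ρ.normed volume y • f (F - y)) - f F‖ ≤ K * ρ.rOut

/-- the exceptional set -/
def S_AE : Prop := ∀ᵐ F ∂(volume : Measure (ℂ × ℂ)), ‖F.1‖ ≠ ‖F.2‖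

/-! ### the functions -/

/-- the class of admissible `κ = ω''` -/
structure Kap (α C : ℝ) (κ : ℝ → ℝ) : Prop where
  a0 : 0 < α
  a1 : α ≤ 1
  C1 : 1 ≤ C
  cont : Continuous κ
  neg : ∀ s, s ≤ 0 → κ s = 0
  nn : ∀ s, 0 ≤ κ s
  up : ∀ s, 0 ≤ s → κ s ≤ C * s ^ α
  bd : ∀ s, κ s ≤ C
  tail : ∀ s, 0 ≤ s → hh1 κ s ≤ C
  e1 : ∀ x y, 0 < y → y ≤ x → y * (hh1 κ (2 * x) - hh1 κ (2 * y)) ≤ (x - y) * κ (2 * x)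
  e2 : ∀ x y, 0 < y → y ≤ x → κ (2 * x) - κ (2 * y) ≤ (hh1 κ (2 * x) - hh1 κ (2 * y)) / 5
  e3 : ∀ x y, 0 < y → y ≤ x → -((hh1 κ (2 * x) - hh1 κ (2 * y)) / 9)
    ≤ om1 κ (2 * x) / (2 * x) - om1 κ (2 * y) / (2 * y)
  e4 : ∀ x y, 0 < y → y ≤ x → om1 κ (2 * x) / (2 * x) - om1 κ (2 * y) / (2 * y)
    ≤ (hh1 κ (2 * x) - hh1 κ (2 * y)) / 6

noncomputable def fI (κ : ℝ → ℝ) (x y : ℝ) : ℝ := ((x - y) * hh κ (x + y) + om κ (x + y)) / 2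
noncomputable def f2 (κ : ℝ → ℝ) (x : ℝ) : ℝ := ∫ s in (0 : ℝ)..x, s * hh1 κ (2 * s)
noncomputable def g2 (κ : ℝ → ℝ) (y : ℝ) : ℝ :=
  ∫ s in (0 : ℝ)..y, (hh κ (2 * s) - s * hh1 κ (2 * s))
/-- the function of `x = |u_z|`, `y = |u_zbar|` -/
noncomputable def fX (κ : ℝ → ℝ) (x y : ℝ) : ℝ := if y < x then f2 κ x - g2 κ y else fI κ x y
/-- its partial derivatives -/
noncomputable def Fx (κ : ℝ → ℝ) (x y : ℝ) : ℝ := x * hh1 κ (x + max x y)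
noncomputable def Fy (κ : ℝ → ℝ) (x y : ℝ) : ℝ :=
  min x y * hh1 κ (y + min x y) - hh κ (y + min x y)
noncomputable def E2 (κ : ℝ → ℝ) (x y : ℝ) : ℝ := ∫ s in (min x y)..x, s * κ (2 * s)
noncomputable def Ht (κ : ℝ → ℝ) (s : ℝ) : ℝ := hh1 κ s - 2 * om1 κ s / s
noncomputable def G2 (κ : ℝ → ℝ) (x y : ℝ) : ℝ :=
  -om κ (y + min x y) - y ^ 2 * (Ht κ (2 * max x y) - Ht κ (2 * y))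

noncomputable def wX (κ : ℝ → ℝ) (ε ϑ : ℝ) (F : ℂ × ℂ) : ℝ :=
  fX κ (XX ε F.1) (XX ε F.2) - fX κ ε ε + ϑ / 2 * (‖F.1‖ ^ 2 + ‖F.2‖ ^ 2)
noncomputable def eX (κ : ℝ → ℝ) (ε ϑ : ℝ) (F : ℂ × ℂ) : ℝ :=
  E2 κ (XX ε F.1) (XX ε F.2) / XX ε F.1 ^ 2 + ϑ
noncomputable def gX (κ : ℝ → ℝ) (ε ϑ : ℝ) (F : ℂ × ℂ) : ℝ :=
  G2 κ (XX ε F.1) (XX ε F.2) / XX ε F.2 ^ 2 - ϑ
/-- the coefficient -/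
noncomputable def mX (ε : ℝ) (F : ℂ × ℂ) : ℂ :=
  (starRingEnd ℂ) F.1 * F.2 / ((XX ε F.1 * max (XX ε F.1) (XX ε F.2) : ℝ) : ℂ)

def S_COEF : Prop := ∀ ε : ℝ, 0 < ε → Coef (mX ε)

def S_REGW : Prop := ∀ (α C : ℝ) (κ : ℝ → ℝ), Kap α C κ → ∀ (ε ϑ : ℝ), 0 < ε → 0 < ϑ →
  Differentiable ℝ (wX κ ε ϑ) ∧ (∃ K, LipschitzWith K (fderiv ℝ (wX κ ε ϑ))) ∧
  wX κ ε ϑ 0 = 0 ∧ fderiv ℝ (wX κ ε ϑ) 0 = 0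

def S_REGE : Prop := ∀ (α C : ℝ) (κ : ℝ → ℝ), Kap α C κ → ∀ (ε ϑ : ℝ), 0 < ε → 0 < ϑ →
  (∃ K, LipschitzWith K (eX κ ε ϑ)) ∧ ∃ K, LipschitzWith K (gX κ ε ϑ)

/-! ### calculus -/

/-- the linear map `(u,v) ↦ a u + b v` -/
noncomputable def lin (a b : ℝ) : ℝ × ℝ →L[ℝ] ℝ :=
  a • ContinuousLinearMap.fst ℝ ℝ ℝ + b • ContinuousLinearMap.snd ℝ ℝ ℝ

/-- partial derivatives of `fX`, everywhere on the open quadrant -/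
def S_JW : Prop := ∀ (α C : ℝ) (κ : ℝ → ℝ), Kap α C κ → ∀ x y : ℝ, 0 < x → 0 < y →
  HasFDerivAt (fun z : ℝ × ℝ => fX κ z.1 z.2) (lin (Fx κ x y) (Fy κ x y)) (x, y)

/-- second derivatives and the derivatives of `E2`, `G2`, region `x < y` -/
def S_J1 : Prop := ∀ (α C : ℝ) (κ : ℝ → ℝ), Kap α C κ → ∀ x y : ℝ, 0 < x → x < y →
  Fx κ x y = x * hh1 κ (x + y) ∧ Fy κ x y = om1 κ (x + y) - y * hh1 κ (x + y) ∧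
  HasFDerivAt (fun z : ℝ × ℝ => Fx κ z.1 z.2)
    (lin (hh1 κ (x + y) + x * κ (x + y) / (x + y)) (x * κ (x + y) / (x + y))) (x, y) ∧
  HasFDerivAt (fun z : ℝ × ℝ => Fy κ z.1 z.2)
    (lin (x * κ (x + y) / (x + y)) (x * κ (x + y) / (x + y) - hh1 κ (x + y))) (x, y) ∧
  E2 κ x y = 0 ∧ HasFDerivAt (fun z : ℝ × ℝ => E2 κ z.1 z.2) (lin 0 0) (x, y) ∧
  G2 κ x y = -om κ (x + y) ∧
  HasFDerivAt (fun z : ℝ × ℝ => G2 κ z.1 z.2) (lin (-om1 κ (x + y)) (-om1 κ (x + y))) (x, y)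

/-- the same, region `y < x` -/
def S_J2 : Prop := ∀ (α C : ℝ) (κ : ℝ → ℝ), Kap α C κ → ∀ x y : ℝ, 0 < y → y < x →
  Fx κ x y = x * hh1 κ (2 * x) ∧ Fy κ x y = om1 κ (2 * y) - y * hh1 κ (2 * y) ∧
  HasFDerivAt (fun z : ℝ × ℝ => Fx κ z.1 z.2) (lin (hh1 κ (2 * x) + κ (2 * x)) 0) (x, y) ∧
  HasFDerivAt (fun z : ℝ × ℝ => Fy κ z.1 z.2) (lin 0 (κ (2 * y) - hh1 κ (2 * y))) (x, y) ∧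
  HasFDerivAt (fun z : ℝ × ℝ => E2 κ z.1 z.2) (lin (x * κ (2 * x)) (-(y * κ (2 * y)))) (x, y) ∧
  HasFDerivAt (fun z : ℝ × ℝ => G2 κ z.1 z.2)
    (lin (-(y ^ 2 / x * (om1 κ (2 * x) / x - κ (2 * x))))
      (-(y * (om1 κ (2 * y) / y + κ (2 * y) + 2 * (hh1 κ (2 * x) - hh1 κ (2 * y))
        - 4 * (om1 κ (2 * x) / (2 * x) - om1 κ (2 * y) / (2 * y)))))) (x, y)

noncomputable def LamG (X Y x1 x2 y1 y2 z ϑ : ℝ) (a b p q r : ℂ) : ℂ :=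
  ((x2 - x1) / (2 * X ^ 2) : ℝ) * ((starRingEnd ℂ) a ^ 2 * p + ‖a‖ ^ 2 * (starRingEnd ℂ) q)
  + ((y2 - y1) / (2 * Y ^ 2) : ℝ) * ((starRingEnd ℂ) b ^ 2 * r + ‖b‖ ^ 2 * (starRingEnd ℂ) q)
  + (z / (2 * X * Y) : ℝ) * (2 * (starRingEnd ℂ) a * (starRingEnd ℂ) b * q
      + (starRingEnd ℂ) a * b * (starRingEnd ℂ) r + a * (starRingEnd ℂ) b * (starRingEnd ℂ) p)
  + (x1 + y1 + 2 * ϑ : ℝ) * (starRingEnd ℂ) q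

noncomputable def OAG (X Y ea eb e0 ϑ : ℝ) (a b p q r : ℂ) : ℝ :=
  (‖a‖ ^ 2 / X ^ 2 * ea + (1 - ‖a‖ ^ 2 / X ^ 2) * e0 + 2 * ϑ) * (‖p‖ ^ 2 - ‖q‖ ^ 2)
  + eb / (X * Y) * ((starRingEnd ℂ) a * ((starRingEnd ℂ) b * r + b * (starRingEnd ℂ) q) * p
      - (starRingEnd ℂ) a * ((starRingEnd ℂ) b * q + b * (starRingEnd ℂ) r) * q).re

noncomputable def OBG (X Y gh gk g0 ϑ : ℝ) (a b p q r : ℂ) : ℝ :=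
  (‖b‖ ^ 2 / Y ^ 2 * gk + (1 - ‖b‖ ^ 2 / Y ^ 2) * g0 - 2 * ϑ) * (‖q‖ ^ 2 - ‖r‖ ^ 2)
  + gh / (X * Y) * ((starRingEnd ℂ) b * ((starRingEnd ℂ) a * q + a * (starRingEnd ℂ) p) * q
      - (starRingEnd ℂ) b * ((starRingEnd ℂ) a * p + a * (starRingEnd ℂ) q) * r).re

/-- second derivatives of functions of the regularised moduli -/
def S_DIVG : Prop := ∀ (Φ Φx Φy : ℝ → ℝ → ℝ) (ε ϑ c0 : ℝ) (a b : ℂ) (xx xy yy : ℝ), 0 < ε →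
  (∀ᶠ z in 𝓝 (XX ε a, XX ε b), HasFDerivAt (fun z : ℝ × ℝ => Φ z.1 z.2)
    (lin (Φx z.1 z.2) (Φy z.1 z.2)) z) →
  HasFDerivAt (fun z : ℝ × ℝ => Φx z.1 z.2) (lin xx xy) (XX ε a, XX ε b) →
  HasFDerivAt (fun z : ℝ × ℝ => Φy z.1 z.2) (lin xy yy) (XX ε a, XX ε b) →
  DifferentiableAt ℝ (fderiv ℝ (fun F : ℂ × ℂ => Φ (XX ε F.1) (XX ε F.2) - c0
    + ϑ / 2 * (‖F.1‖ ^ 2 + ‖F.2‖ ^ 2))) (a, b) ∧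
  ∀ p q r φ : ℂ, DIV (fun F : ℂ × ℂ => Φ (XX ε F.1) (XX ε F.2) - c0
      + ϑ / 2 * (‖F.1‖ ^ 2 + ‖F.2‖ ^ 2)) (a, b) p q r φ
    = (LamG (XX ε a) (XX ε b) (Φx (XX ε a) (XX ε b) / XX ε a) xx
        (Φy (XX ε a) (XX ε b) / XX ε b) yy xy ϑ a b p q r * φ).re

def S_OMG : Prop := ∀ (Ψ : ℝ → ℝ → ℝ) (ε ϑ : ℝ) (a b : ℂ) (gx gy : ℝ), 0 < ε →
  HasFDerivAt (fun z : ℝ × ℝ => Ψ z.1 z.2) (lin gx gy) (XX ε a, XX ε b) →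
  (DifferentiableAt ℝ (fun F : ℂ × ℂ => Ψ (XX ε F.1) (XX ε F.2) / XX ε F.1 ^ 2 + ϑ) (a, b) ∧
    ∀ p q r : ℂ, OMa (fun F : ℂ × ℂ => Ψ (XX ε F.1) (XX ε F.2) / XX ε F.1 ^ 2 + ϑ) (a, b) p q r
      = OAG (XX ε a) (XX ε b) (gx / XX ε a) (gy / XX ε a)
        (2 * Ψ (XX ε a) (XX ε b) / XX ε a ^ 2) ϑ a b p q r) ∧
  (DifferentiableAt ℝ (fun F : ℂ × ℂ => Ψ (XX ε F.1) (XX ε F.2) / XX ε F.2 ^ 2 - ϑ) (a, b) ∧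
    ∀ p q r : ℂ, OMb (fun F : ℂ × ℂ => Ψ (XX ε F.1) (XX ε F.2) / XX ε F.2 ^ 2 - ϑ) (a, b) p q r
      = OBG (XX ε a) (XX ε b) (gx / XX ε b) (gy / XX ε b)
        (2 * Ψ (XX ε a) (XX ε b) / XX ε b ^ 2) ϑ a b p q r)

/-! ### algebra -/

noncomputable def FpG (A B l x1 x2 y1 y2 z ea eb e0 gh gk g0 ϑ n P Q R : ℝ) : ℝ :=
  ((A ^ 2 * (x2 - x1) + A * B * z) * P
    + (A ^ 2 * (x2 - x1) + B ^ 2 * (y2 - y1) + 2 * (A * B) * z + 2 * (x1 + y1) + 4 * ϑ) * Q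
    + (B ^ 2 * (y2 - y1) + A * B * z) * R) * (l * (A * B) * P + n * Q + l * (A * B) * R)
  + (A ^ 2 * ea + (1 - A ^ 2) * e0 + 2 * ϑ) * (P ^ 2 - Q ^ 2)
  + (B ^ 2 * gk + (1 - B ^ 2) * g0 - 2 * ϑ) * (Q ^ 2 - R ^ 2)
  + A * B * eb * (P * R + P * Q - Q ^ 2 - Q * R)
  + A * B * gh * (Q ^ 2 + P * Q - P * R - Q * R)

noncomputable def FmG (A B l x1 x2 y1 y2 z ea eb e0 gh gk g0 ϑ n P Q R : ℝ) : ℝ :=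
  -((A ^ 2 * (x2 - x1) * (P - Q) + B ^ 2 * (y2 - y1) * (R - Q)
      + A * B * z * (2 * Q - R - P) - (2 * (x1 + y1) + 4 * ϑ) * Q)
        * (l * (A * B) * P + n * Q + l * (A * B) * R))
  + (A ^ 2 * ea + (1 - A ^ 2) * e0 + 2 * ϑ) * (P ^ 2 - Q ^ 2)
  + (B ^ 2 * gk + (1 - B ^ 2) * g0 - 2 * ϑ) * (Q ^ 2 - R ^ 2)
  + A * B * eb * (-(P * R) + P * Q + Q ^ 2 - Q * R)
  + A * B * gh * (-Q ^ 2 + P * Q + P * R - Q * R)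

def S_ROTG : Prop := ∀ (X Y l x1 x2 y1 y2 z ea eb e0 gh gk g0 ϑ n : ℝ) (a b p q r : ℂ),
  0 < X → 0 < Y → ∃ P Q R P' Q' R' : ℝ,
    2 * (LamG X Y x1 x2 y1 y2 z ϑ a b p q r *
      (n * q + l * ((starRingEnd ℂ) a * b / ((X * Y : ℝ) : ℂ)) * p
        + (starRingEnd ℂ) (l * ((starRingEnd ℂ) a * b / ((X * Y : ℝ) : ℂ))) * r)).re
      + OAG X Y ea eb e0 ϑ a b p q r + OBG X Y gh gk g0 ϑ a b p q r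
    = FpG (‖a‖ / X) (‖b‖ / Y) l x1 x2 y1 y2 z ea eb e0 gh gk g0 ϑ n P Q R
      + FmG (‖a‖ / X) (‖b‖ / Y) l x1 x2 y1 y2 z ea eb e0 gh gk g0 ϑ n P' Q' R'

/-- region `x < y`: the old quadratic form inequality with explicit `δ` -/
def S_ALG1 : Prop := ∀ K ϑ δ : ℝ, 1 ≤ K → 0 < ϑ → 0 < δ → δ ≤ 1 → δ * (4 * K ^ 2) ≤ ϑ ^ 2 →
  ∃ ε1 : ℝ, 0 < ε1 ∧
  ∀ ε : ℝ, 0 < ε → ε < ε1 → ∀ A B ρ τ ξ ζ e2 g2 : ℝ, Bnd K ε A B ρ τ ξ ζ e2 g2 →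
  ∀ P Q R : ℝ, 0 ≤ Fpl A B ρ τ ξ ζ e2 g2 ϑ (2 + 4 * δ) P Q R ∧
    0 ≤ Fmi A B ρ τ ξ ζ e2 g2 ϑ (2 + 4 * δ) P Q R

/-- numerical facts, region `y < x`: `t = Y/X`, `K1 = κ(2X)`, `K2 = κ(2Y)`, `O1, O2` the averages
`ω'(s)/s` at `2X`, `2Y`, `H = h'(2X) - h'(2Y)` -/
structure Bn2 (K e A B t K1 K2 O1 O2 H e0 g0 : ℝ) : Prop where
  hA : 0 ≤ A ∧ A ≤ 1
  hB : 0 ≤ B ∧ B ≤ 1
  ht : 0 < t ∧ t ≤ 1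
  k1 : 0 ≤ K1 ∧ K1 ≤ K
  k2 : 0 ≤ K2 ∧ K2 ≤ K
  o1 : 0 ≤ O1 ∧ O1 ≤ K
  o2 : 0 ≤ O2 ∧ O2 ≤ K
  h0 : 0 ≤ H ∧ H ≤ K
  c1 : t * H ≤ (1 - t) * K1
  c2 : K1 - K2 ≤ H / 5
  c3 : -(H / 9) ≤ O1 - O2
  c4 : O1 - O2 ≤ H / 6
  r1 : (1 - A ^ 2) * K1 ≤ e
  r2 : (1 - A ^ 2) * |e0 - K1| ≤ e
  r3 : (1 - B ^ 2) * |K2 - 2 * O2| ≤ e
  r4 : (1 - B ^ 2) * |g0 + (2 * O2 + K2 + 2 * H - 4 * (O1 - O2))| ≤ e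
  r5 : t * (1 - A * B) * (H + K1 + K2 + O1 + O2) ≤ e

/-- the ideal forms are nonnegative -/
def S_IDL : Prop := ∀ t K1 K2 O1 O2 H : ℝ, 0 < t → t ≤ 1 → 0 ≤ K1 → 0 ≤ K2 → 0 ≤ O2 → 0 ≤ H →
  t * H ≤ (1 - t) * K1 → K1 - K2 ≤ H / 5 → -(H / 9) ≤ O1 - O2 → O1 - O2 ≤ H / 6 →
  ∀ P Q R : ℝ,
  0 ≤ (1 + t) * K1 * (P + Q) ^ 2 + (1 + t) * K2 * (Q + R) ^ 2 + 2 * (1 - t) * O2 * (Q - R) ^ 2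
    + 2 * H * (Q ^ 2 + R ^ 2 + t * Q * (P + R))
    + (O1 - O2) * ((4 - 2 * t) * Q ^ 2 - 4 * R ^ 2 - 2 * t * P * Q + 2 * t * P * R
      + 2 * t * Q * R) ∧
  0 ≤ (1 - t) * K1 * (P - Q) ^ 2 + (1 - t) * K2 * (Q - R) ^ 2 + 2 * (1 + t) * O2 * (Q + R) ^ 2
    + 2 * H * (Q ^ 2 + R ^ 2 + t * Q * (P + R))
    + (O1 - O2) * ((4 + 2 * t) * Q ^ 2 - 4 * R ^ 2 - 2 * t * P * Q - 2 * t * P * R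
      + 2 * t * Q * R)

def S_ALG2 : Prop := ∀ K ϑ δ : ℝ, 1 ≤ K → 0 < ϑ → 0 < δ → δ ≤ 1 → δ * (4 * K ^ 2) ≤ ϑ ^ 2 →
  ∃ ε1 : ℝ, 0 < ε1 ∧ ∀ e : ℝ, 0 ≤ e → e < ε1 → ∀ A B t K1 K2 O1 O2 H e0 g0 : ℝ,
  Bn2 K e A B t K1 K2 O1 O2 H e0 g0 → ∀ P Q R : ℝ,
  0 ≤ FpG A B t H (H + K1) (2 * O2) K2 0 K1 (-(t * K2)) e0 (-(t * (2 * O1 - K1)))
      (-(2 * O2 + K2 + 2 * H - 4 * (O1 - O2))) g0 ϑ (2 + 4 * δ) P Q R ∧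
  0 ≤ FmG A B t H (H + K1) (2 * O2) K2 0 K1 (-(t * K2)) e0 (-(t * (2 * O1 - K1)))
      (-(2 * O2 + K2 + 2 * H - 4 * (O1 - O2))) g0 ϑ (2 + 4 * δ) P Q R

/-- bounds, region `x <= y` -/
def S_BND1 : Prop := ∀ (α C : ℝ) (κ : ℝ → ℝ), Kap α C κ → ∃ K : ℝ, 1 ≤ K ∧
  ∀ ε : ℝ, 0 < ε → ε < 1 / 8 → ∀ x y : ℝ, 0 ≤ x → x ≤ y → ∀ X Y : ℝ,
  X = Real.sqrt (x ^ 2 + ε ^ 2) → Y = Real.sqrt (y ^ 2 + ε ^ 2) →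
  Bnd K (ε ^ α) (x / X) (y / Y) (2 * X * κ (X + Y) / (X + Y)) 0 0 (om1 κ (X + Y) / Y) 0
    (2 * -om κ (X + Y) / Y ^ 2)

/-- bounds, region `y < x` -/
def S_BND2 : Prop := ∀ (α C : ℝ) (κ : ℝ → ℝ), Kap α C κ → ∃ K : ℝ, 1 ≤ K ∧
  ∀ ε : ℝ, 0 < ε → ε < 1 / 8 → ∀ x y : ℝ, 0 ≤ y → y < x → ∀ X Y : ℝ,
  X = Real.sqrt (x ^ 2 + ε ^ 2) → Y = Real.sqrt (y ^ 2 + ε ^ 2) →
  Bn2 K (K * ε ^ α) (x / X) (y / Y) (Y / X) (κ (2 * X)) (κ (2 * Y)) (om1 κ (2 * X) / (2 * X))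
    (om1 κ (2 * Y) / (2 * Y)) (hh1 κ (2 * X) - hh1 κ (2 * Y)) (2 * E2 κ X Y / X ^ 2)
    (2 * G2 κ X Y / Y ^ 2)

/-! ### conclusions -/

def S_PCX : Prop := ∀ (α C : ℝ) (κ : ℝ → ℝ), Kap α C κ → ∀ ϑ : ℝ, 0 < ϑ → ∃ δ : ℝ, 0 < δ ∧
  ∃ ε1 : ℝ, 0 < ε1 ∧ ∀ ε : ℝ, 0 < ε → ε < ε1 → ∀ F : ℂ × ℂ, ‖F.1‖ ≠ ‖F.2‖ →
    Cert (mX ε) (2 + 4 * δ) (wX κ ε ϑ) (eX κ ε ϑ) (gX κ ε ϑ) F

def S_QTX : Prop := ∀ (α C : ℝ) (κ : ℝ → ℝ), Kap α C κ → ∀ ϑ : ℝ, 0 < ϑ → ∀ ε0 : ℝ, 0 < ε0 →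
  ∃ ε : ℝ, 0 < ε ∧ ε < ε0 ∧ QC0 (wX κ ε ϑ)

def S_QWX : Prop := ∀ (α C : ℝ) (κ : ℝ → ℝ), Kap α C κ → QC0 (fun F => fX κ ‖F.1‖ ‖F.2‖)

/-- the truncated power -/
noncomputable def kp (p R s : ℝ) : ℝ :=
  if s ≤ 0 then 0 else if s ≤ R then s ^ (p - 2) else R ^ (p - 2) * (R / s) ^ (1 / 10 : ℝ)

def S_KAP : Prop := ∀ p R : ℝ, 2 < p → p ≤ 11 / 5 → 1 ≤ R → ∃ α C : ℝ, Kap α C (kp p R)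

/-- the homogeneous function -/
noncomputable def Wq (p x y : ℝ) : ℝ :=
  if y < x then 2 ^ (p - 2) * ((p - 1) * x ^ p - (3 - p) * y ^ p)
  else ((p - 1) * x - y) * (x + y) ^ (p - 1)

def S_HOM : Prop := ∀ p R x y : ℝ, 2 < p → p ≤ 11 / 5 → 1 ≤ R → 0 ≤ x → 0 ≤ y →
  2 * (x + y) ≤ R → p * (p - 1) * (p - 2) * fX (kp p R) x y = Wq p x y

def S_QPX : Prop := ∀ p : ℝ, 2 < p → p ≤ 11 / 5 → QC0 (fun F => Wq p ‖F.1‖ ‖F.2‖)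

def S_PTX : Prop := ∀ p x y : ℝ, 2 < p → 0 ≤ x → 0 ≤ y →
  p * (1 - 1 / p) ^ (p - 1) * Wq p x y ≤ (p - 1) ^ p * x ^ p - y ^ p

end Pool.Agent.W488.IX
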