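import Pool.Agent.W735.IW.Asm
import Pool.Agent.W488.IX.Stm
import Pool.Agent.W947.IX.Concm
import Pool.Agent.W45.IX.Flowm
import Pool.Agent.W407.IX.Mol1
import Pool.Agent.W880.IX.Ae
import Pool.Agent.W883.IX.Coef
import Pool.Agent.W439.IX.Regw
import Pool.Agent.W63.IX.Rege
import Pool.Agent.W699.IX.Jw
import Pool.Agent.W880.IX.J1
import Pool.Agent.W880.IX.J2
import Pool.Agent.W253.IX.Divg
import Pool.Agent.W588.IX.Omg
import Pool.Agent.W72.IX.Rotg
import Pool.Agent.W880.IX.Alg1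
import Pool.Agent.W293.IX.Idl
import Pool.Agent.W118.IX.Bnd1
import Pool.Agent.W658.IX.Pcx
import Pool.Agent.W440.IX.Qtx
import Pool.Agent.W398.IX.Qwx
import Pool.Agent.W409.IX.Kap
import Pool.Agent.W305.IX.Hom
import Pool.Agent.W440.IX.Qpx
import Pool.Agent.W347.IX.Ptx
import Pool.Agent.W249.IX.Iw2
import Pool.Agent.W58.IX.Frz
import Pool.Agent.W410.IX.Mol
import Pool.Agent.W334.IX.Alg2
import Pool.Agent.W312.IX.Bnd2

/-! Project IX (helper488): assembly of the closed theorems. -/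

set_option autoImplicit false

namespace Pool.Agent.W488.IX.Asm

open Pool.Agent.W488.IW Pool.Agent.W488.IX

theorem flowm : S_FLOWM := Pool.Agent.W45.IX.Flowm.main Pool.Agent.W136.IW.Ode.main
  Pool.Agent.W735.IW.Asm.en Pool.Agent.W735.IW.Asm.tail Pool.Agent.W947.IX.Concm.main
  Pool.Agent.W735.IW.Asm.chain Pool.Agent.W411.IW.Pars.main

theorem regw : S_REGW := Pool.Agent.W439.IX.Regw.main Pool.Agent.W699.IX.Jw.main

theorem mol : S_MOL := Pool.Agent.W410.IX.Mol.main Pool.Agent.W407.IX.Mol1.main flowm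
  Pool.Agent.W116.IW.Null.main Pool.Agent.W411.IW.Pars.main

theorem pcx : S_PCX := Pool.Agent.W658.IX.Pcx.main Pool.Agent.W699.IX.Jw.main
  Pool.Agent.W880.IX.J1.main Pool.Agent.W880.IX.J2.main Pool.Agent.W253.IX.Divg.main
  Pool.Agent.W588.IX.Omg.main Pool.Agent.W72.IX.Rotg.main Pool.Agent.W880.IX.Alg1.main
  (Pool.Agent.W334.IX.Alg2.main Pool.Agent.W293.IX.Idl.main)
  Pool.Agent.W118.IX.Bnd1.main Pool.Agent.W312.IX.Bnd2.main

theorem qtx : S_QTX := Pool.Agent.W440.IX.Qtx.main pcx regw Pool.Agent.W63.IX.Rege.main mol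
  Pool.Agent.W880.IX.Ae.main Pool.Agent.W883.IX.Coef.main

theorem qwx : S_QWX := Pool.Agent.W398.IX.Qwx.main qtx

theorem qpx : S_QPX := Pool.Agent.W440.IX.Qpx.main qwx Pool.Agent.W409.IX.Kap.main
  Pool.Agent.W305.IX.Hom.main

/-- **The sharp inequality** `∫ |dzb f| ^ p ≤ (p - 1) ^ p ∫ |dz f| ^ p` for all `p ≥ 2`. -/
theorem iw2 : S_IW 2 := Pool.Agent.W249.IX.Iw2.main qpx Pool.Agent.W735.IW.Asm.plane
  Pool.Agent.W347.IX.Ptx.main Pool.Agent.W735.IW.Asm.iw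

/-- The statement of S06751: the Iwaniec conjecture. -/
theorem frz : ∀ p : ℝ, 1 < p → ∀ f : ℂ → ℂ, ContDiff ℝ 1 f → HasCompactSupport f →
      ∫ z, ‖(1 / 2 : ℂ) * (fderiv ℝ f z 1 + Complex.I * fderiv ℝ f z Complex.I)‖ ^ p
        ≤ (max p (p / (p - 1)) - 1) ^ p *
          ∫ z, ‖(1 / 2 : ℂ) * (fderiv ℝ f z 1 - Complex.I * fderiv ℝ f z Complex.I)‖ ^ p :=
  Pool.Agent.W58.IX.Frz.main iw2 Pool.Agent.W883.IW.Pv.main

end Pool.Agent.W488.IX.Asm
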