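import Pool.Agent.W488.IX.Core
import Pool.Agent.W374.BA.Mult

/-! The sharp norm of the Beurling transform on Schwartz functions, literal multiplier form. -/

set_option autoImplicit false

open MeasureTheory
open scoped FourierTransform SchwartzMap

namespace Pool.Agent.W488.IX.Sch

open Pool.Agent

theorem sch {p : ℝ} (hp : 2 ≤ p) (f : 𝓢(ℂ, ℂ)) :
    eLpNorm (W802.BA.Beu f) (ENNReal.ofReal p) (volume : Measure ℂ)
      ≤ ENNReal.ofReal (p - 1) * eLpNorm f (ENNReal.ofReal p) (volume : Measure ℂ) := by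
  refine W374.BAMult.mult p (p - 1) hp (by linarith) ?_ f
  intro g hg hs
  exact W488.IX.Core.iw2 p hp g hg hs

theorem form (p : ℝ) (hp : 2 ≤ p) (f : SchwartzMap ℂ ℂ) :
    eLpNorm
      (fun z : ℂ => ∫ ξ : ℂ,
        Complex.exp (2 * (Real.pi : ℂ) * Complex.I * ((z.re * ξ.re + z.im * ξ.im : ℝ) : ℂ)) *
          ((starRingEnd ℂ ξ / ξ) ^ 1 *
            ∫ w : ℂ, Complex.exp (-(2 * (Real.pi : ℂ) * Complex.I *
              ((w.re * ξ.re + w.im * ξ.im : ℝ) : ℂ))) * f w))
      (ENNReal.ofReal p) volume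
    ≤ ENNReal.ofReal (p - 1) * eLpNorm (fun z : ℂ => f z) (ENNReal.ofReal p) volume := by
  have h := sch hp f
  refine le_trans (le_of_eq ?_) h
  congr 1
  funext z
  unfold W802.BA.Beu
  rw [Real.fourierInv_eq']
  refine integral_congr_ae (Filter.Eventually.of_forall fun ξ => ?_)
  have hin : ∀ a b : ℂ, (inner ℝ a b : ℝ) = a.re * b.re + a.im * b.im := by
    intro a b
    rw [Complex.inner]
    simp
    ring
  simp only [smul_eq_mul, pow_one]
  rw [Real.fourier_eq']
  have e1 : ∫ w : ℂ, Complex.exp (-(2 * (Real.pi : ℂ) * Complex.I *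
      ((w.re * ξ.re + w.im * ξ.im : ℝ) : ℂ))) * f w
      = ∫ v : ℂ, Complex.exp (((-2 * Real.pi * inner ℝ v ξ : ℝ) : ℂ) * Complex.I) • f v := by
    refine integral_congr_ae (Filter.Eventually.of_forall fun x => ?_)
    simp only [smul_eq_mul]
    rw [hin]
    congr 2
    push_cast
    ring
  rw [e1, hin]
  congr 2
  push_cast
  ring

end Pool.Agent.W488.IX.Sch
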